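import Mathlib

set_option autoImplicit false

namespace Pool.Agent.H55

/-- Two fixed point free involutions have a common proper 2-colouring. -/
theorem two_involutions_aux {X : Type*} (a b : X → X) (ha : ∀ x, a (a x) = x)
    (ha' : ∀ x, a x ≠ x) (hb : ∀ x, b (b x) = x) (hb' : ∀ x, b x ≠ x) :
    ∃ c : X → Bool, (∀ x, c (a x) = !(c x)) ∧ (∀ x, c (b x) = !(c x)) := by
  classical
  let A : Equiv.Perm X := ⟨a, a, ha, ha⟩
  let B : Equiv.Perm X := ⟨b, b, hb, hb⟩
  have hA : ∀ x, A x = a x := fun _ => rfl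
  have hB : ∀ x, B x = b x := fun _ => rfl
  have hAA : A * A = 1 := by ext x; simp [hA, ha]
  have hBB : B * B = 1 := by ext x; simp [hB, hb]
  let σ : Equiv.Perm X := A * B
  -- conjugation
  have hAi : A⁻¹ = A := inv_eq_of_mul_eq_one_left hAA
  have hBi : B⁻¹ = B := inv_eq_of_mul_eq_one_left hBB
  have hconj : ∀ n : ℤ, A * σ ^ n = σ ^ (-n) * A := by
    intro n
    have h1 : A * σ * A⁻¹ = σ⁻¹ := by
      simp only [σ, mul_inv_rev, hAi, hBi]
      rw [← mul_assoc, hAA, one_mul]
    have h2 : A * σ ^ n * A⁻¹ = (σ⁻¹) ^ n := by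
      rw [← h1, conj_zpow]
    rw [inv_zpow', hAi] at h2
    calc A * σ ^ n = A * σ ^ n * (A * A) := by rw [hAA, mul_one]
      _ = (A * σ ^ n * A) * A := by group
      _ = σ ^ (-n) * A := by rw [h2]
  have hnot : ∀ x, ¬ σ.SameCycle x (A x) := by
    rintro x ⟨k, hk⟩
    rcases Int.even_or_odd' k with ⟨j, hj | hj⟩
    · -- k = 2 j
      apply ha' ((σ ^ j) x)
      have : (A * σ ^ j) x = (σ ^ j) x := by
        rw [hconj j]
        simp only [Equiv.Perm.mul_apply]
        rw [← hk, ← Equiv.Perm.mul_apply, ← zpow_add]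
        congr 2
        rw [hj]; ring
      exact this
    · apply hb' ((σ ^ j) x)
      have hBσ : B = A * σ := by
        simp only [σ]; rw [← mul_assoc, hAA, one_mul]
      have : (B * σ ^ j) x = (σ ^ j) x := by
        rw [hBσ, mul_assoc, ← zpow_one_add, hconj]
        simp only [Equiv.Perm.mul_apply]
        rw [← hk, ← Equiv.Perm.mul_apply, ← zpow_add]
        congr 2
        rw [hj]; ring
      exact this
  have hmap : ∀ x y, σ.SameCycle x y → σ.SameCycle (A x) (A y) := by
    rintro x y ⟨k, hk⟩
    refine ⟨-k, ?_⟩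
    rw [← hk, ← Equiv.Perm.mul_apply, ← Equiv.Perm.mul_apply, ← hconj]
  let s : Setoid X := Equiv.Perm.SameCycle.setoid σ
  let abar : Quotient s → Quotient s := Quotient.map a (fun x y h => hmap x y h)
  have habar : ∀ q, abar q ≠ q := by
    intro q
    induction q using Quotient.inductionOn with
    | h x =>
      intro h
      have := Quotient.exact h
      exact hnot x (Equiv.Perm.SameCycle.symm this)
  have habar2 : ∀ q, abar (abar q) = q := by
    intro q
    induction q using Quotient.inductionOn with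
    | h x =>
      show (Quotient.mk s (a (a x))) = _
      rw [ha]
  let _ : LinearOrder (Quotient s) := linearOrderOfSTO (WellOrderingRel)
  let c : X → Bool := fun x => decide ((Quotient.mk s x) < abar (Quotient.mk s x))
  have hca : ∀ x, c (a x) = !(c x) := by
    intro x
    have h1 : (Quotient.mk s (a x)) = abar (Quotient.mk s x) := rfl
    simp only [c, h1, habar2]
    rcases lt_or_gt_of_ne (habar (Quotient.mk s x)) with h | h
    · simp [h, not_lt_of_gt h]
    · simp [h, not_lt_of_gt h]
  have hcσ : ∀ x, c (σ x) = c x := by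
    intro x
    have h1 : (Quotient.mk s (σ x)) = (Quotient.mk s x) := by
      apply Quotient.sound
      show σ.SameCycle (σ x) x
      exact Equiv.Perm.SameCycle.symm ⟨1, by simp⟩
    simp only [c, h1]
  refine ⟨c, hca, ?_⟩
  intro x
  have h1 : b x = a (σ x) := by
    simp only [σ, Equiv.Perm.mul_apply, hA, hB, ha]
  rw [h1, hca, hcσ]

/-- Two involutions (fixed points allowed) have a common 2-colouring, proper on the
non-fixed points. -/
theorem two_involutions {X : Type*} (a b : X → X) (ha : ∀ x, a (a x) = x)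
    (hb : ∀ x, b (b x) = x) :
    ∃ c : X → Bool, (∀ x, a x ≠ x → c (a x) = !(c x)) ∧
      (∀ x, b x ≠ x → c (b x) = !(c x)) := by
  classical
  let D : (X → X) → (X × Bool → X × Bool) := fun f p =>
    if f p.1 = p.1 then (p.1, !p.2) else (f p.1, p.2)
  have hD1 : ∀ f : X → X, (∀ x, f (f x) = x) → ∀ p, D f (D f p) = p := by
    rintro f hf ⟨x, i⟩
    by_cases h : f x = x
    · simp [D, h]
    · have h' : ¬ x = f x := fun e => h e.symm
      simp [D, h, hf, h']
  have hD2 : ∀ f : X → X, (∀ x, f (f x) = x) → ∀ p, D f p ≠ p := by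
    rintro f hf ⟨x, i⟩
    by_cases h : f x = x
    · simp [D, h]
    · simp [D, h]
  obtain ⟨c, hc1, hc2⟩ := two_involutions_aux (D a) (D b) (hD1 a ha) (hD2 a ha) (hD1 b hb) (hD2 b hb)
  refine ⟨fun x => c (x, true), ?_, ?_⟩
  · intro x hx
    have := hc1 (x, true)
    simpa [D, hx] using this
  · intro x hx
    have := hc2 (x, true)
    simpa [D, hx] using this

end Pool.Agent.H55
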