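import Mathlib
import Pool.Agent.H55.Halving

set_option autoImplicit false

namespace Pool.Agent.H55

/-- One halving step: from `K` we select a subset without `M`-related pairs (`M` a partial
matching) which still meets the surroundings of every close pair of elements of `K`. -/
theorem halving_step {X : Type*} [Finite X] (K : Set X) (cl M : X → X → Prop)
    (hM : ∀ x y, M x y → M y x) (hcl : ∀ x y, cl x y → cl y x)
    (hM1 : ∀ x y z, M x y → M x z → y = z) :
    ∃ K' : Set X, K' ⊆ K ∧ (∀ x ∈ K', ∀ y ∈ K', x ≠ y → ¬ M x y) ∧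
      ∀ x ∈ K, ∀ y ∈ K, x ≠ y → cl x y → ∃ z ∈ K', z = x ∨ z = y ∨ cl x z ∨ cl y z := by
  classical
  have := Fintype.ofFinite X
  -- maximal pairing
  let P : Set (Equiv.Perm X) := {a | (∀ x, a (a x) = x) ∧ ∀ x, a x ≠ x → x ∈ K ∧ cl x (a x)}
  have hPne : P.Nonempty := ⟨1, by simp [P]⟩
  obtain ⟨a, haP, hmax⟩ := Set.exists_max_image P (fun a => (Equiv.Perm.support a).card)
    (Set.toFinite P) hPne
  have ha1 : ∀ x, a (a x) = x := haP.1
  have ha2 : ∀ x, a x ≠ x → x ∈ K ∧ cl x (a x) := haP.2
  have hamax : ∀ x ∈ K, ∀ y ∈ K, x ≠ y → cl x y → a x ≠ x ∨ a y ≠ y := by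
    intro x hx y hy hxy hc
    by_contra hcon
    push Not at hcon
    obtain ⟨hax, hay⟩ := hcon
    let a' : Equiv.Perm X := Equiv.swap x y * a
    have e1 : a' x = y := by simp [a', hax]
    have e2 : a' y = x := by simp [a', hay]
    have e3 : ∀ z, z ≠ x → z ≠ y → a' z = a z := by
      intro z hzx hzy
      have h1 : a z ≠ x := fun h => hzx (by rw [← ha1 z, h, hax])
      have h2 : a z ≠ y := fun h => hzy (by rw [← ha1 z, h, hay])
      simp [a', Equiv.swap_apply_of_ne_of_ne h1 h2]
    have e4 : ∀ z, z ≠ x → z ≠ y → a z ≠ x ∧ a z ≠ y := by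
      intro z hzx hzy
      exact ⟨fun h => hzx (by rw [← ha1 z, h, hax]), fun h => hzy (by rw [← ha1 z, h, hay])⟩
    have ha'P : a' ∈ P := by
      constructor
      · intro z
        by_cases hzx : z = x
        · subst hzx; rw [e1, e2]
        by_cases hzy : z = y
        · subst hzy; rw [e2, e1]
        rw [e3 z hzx hzy, e3 _ (e4 z hzx hzy).1 (e4 z hzx hzy).2, ha1]
      · intro z hz
        by_cases hzx : z = x
        · subst hzx; rw [e1]; exact ⟨hx, hc⟩
        by_cases hzy : z = y
        · subst hzy; rw [e2]; exact ⟨hy, hcl _ _ hc⟩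
        rw [e3 z hzx hzy] at hz ⊢
        exact ha2 z hz
    have hlt : (Equiv.Perm.support a).card < (Equiv.Perm.support a').card := by
      apply Finset.card_lt_card
      rw [Finset.ssubset_iff_of_subset]
      · refine ⟨x, ?_, ?_⟩
        · rw [Equiv.Perm.mem_support, e1]; exact fun h => hxy h.symm
        · rw [Equiv.Perm.mem_support]; simp [hax]
      · intro z hz
        rw [Equiv.Perm.mem_support] at hz ⊢
        have hzx : z ≠ x := by rintro rfl; exact hz hax
        have hzy : z ≠ y := by rintro rfl; exact hz hay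
        rw [e3 z hzx hzy]; exact hz
    exact absurd (hmax a' ha'P) (not_le.mpr hlt)
  -- the conflict involution
  let b : X → X := fun x => if h : ∃ y, M x y then h.choose else x
  have hb1 : ∀ x y, M x y → b x = y := by
    intro x y h
    have hex : ∃ y, M x y := ⟨y, h⟩
    have : b x = hex.choose := by simp only [b]; rw [dif_pos hex]
    rw [this]
    exact hM1 _ _ _ hex.choose_spec h
  have hb2 : ∀ x, b (b x) = x := by
    intro x
    by_cases h : ∃ y, M x y
    · obtain ⟨y, hy⟩ := h
      rw [hb1 x y hy, hb1 y x (hM _ _ hy)]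
    · have : b x = x := by simp only [b]; rw [dif_neg h]
      rw [this, this]
  obtain ⟨c, hc1, hc2⟩ := two_involutions a b ha1 hb2
  refine ⟨{x | x ∈ K ∧ a x ≠ x ∧ c x = true}, fun x hx => hx.1, ?_, ?_⟩
  · rintro x ⟨_, _, hcx⟩ y ⟨_, _, hcy⟩ hxy hMxy
    have h1 := hb1 x y hMxy
    have h2 := hc2 x (by rw [h1]; exact fun h => hxy h.symm)
    rw [h1, hcx, hcy] at h2
    simp at h2
  · have key : ∀ x ∈ K, a x ≠ x → ∃ z, (z ∈ K ∧ a z ≠ z ∧ c z = true) ∧ (z = x ∨ cl x z) := by
      intro x hx hax
      cases hcx : c x with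
      | true => exact ⟨x, ⟨hx, hax, hcx⟩, Or.inl rfl⟩
      | false =>
        have h1 := hc1 x hax
        rw [hcx] at h1
        have h2 : a (a x) ≠ a x := by rw [ha1]; exact fun h => hax h.symm
        exact ⟨a x, ⟨(ha2 _ h2).1, h2, by simpa using h1⟩, Or.inr (ha2 x hax).2⟩
    intro x hx y hy hxy hc
    rcases hamax x hx y hy hxy hc with h | h
    · obtain ⟨z, hz, hz'⟩ := key x hx h
      exact ⟨z, hz, by tauto⟩
    · obtain ⟨z, hz, hz'⟩ := key y hy h
      exact ⟨z, hz, by tauto⟩

/-- Greedy colouring. -/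
theorem greedy_colouring {X : Type*} [Fintype X] (R : X → X → Prop) (d : ℕ)
    (hR : ∀ x y, R x y → R y x) (hirr : ∀ x, ¬ R x x)
    (hd : ∀ x, ∃ N : Finset X, N.card ≤ d ∧ ∀ y, R x y → y ∈ N) :
    ∃ c : X → Fin (d + 1), ∀ x y, R x y → c x ≠ c y := by
  classical
  have h : ∀ S : Finset X, ∃ c : X → Fin (d + 1), ∀ x ∈ S, ∀ y ∈ S, R x y → c x ≠ c y := by
    intro S
    induction S using Finset.induction_on with
    | empty => exact ⟨fun _ => 0, by simp⟩
    | insert x S hx ih =>
      obtain ⟨c, hc⟩ := ih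
      obtain ⟨N, hN, hN'⟩ := hd x
      have : ∃ k : Fin (d + 1), k ∉ N.image c := by
        by_contra hcon
        push Not at hcon
        have h1 : (Finset.univ : Finset (Fin (d + 1))) ⊆ N.image c := fun k _ => hcon k
        have h2 := Finset.card_le_card h1
        have h3 := Finset.card_image_le (s := N) (f := c)
        simp at h2
        omega
      obtain ⟨k, hk⟩ := this
      refine ⟨Function.update c x k, ?_⟩
      intro y hy z hz hyz
      rw [Finset.mem_insert] at hy hz
      have hyz' : y ≠ z := by rintro rfl; exact hirr _ hyz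
      rcases hy with rfl | hy
      · rcases hz with rfl | hz
        · exact absurd rfl hyz'
        · rw [Function.update_self, Function.update_of_ne (Ne.symm hyz')]
          intro h
          exact hk (Finset.mem_image.mpr ⟨z, hN' z hyz, h.symm⟩)
      · rcases hz with rfl | hz
        · rw [Function.update_self, Function.update_of_ne hyz']
          intro h
          exact hk (Finset.mem_image.mpr ⟨y, hN' y (hR _ _ hyz), h⟩)
        · have h1 : y ≠ x := by rintro rfl; exact hx hy
          have h2 : z ≠ x := by rintro rfl; exact hx hz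
          rw [Function.update_of_ne h1, Function.update_of_ne h2]
          exact hc y hy z hz hyz
  obtain ⟨c, hc⟩ := h Finset.univ
  exact ⟨c, fun x y h => hc x (Finset.mem_univ _) y (Finset.mem_univ _) h⟩

/-- A bounded degree relation is covered by boundedly many partial matchings. -/
theorem matchings_cover {X : Type*} [Fintype X] (H : X → X → Prop) (d : ℕ)
    (hH : ∀ x y, H x y → H y x) (hirr : ∀ x, ¬ H x x)
    (hd : ∀ x, ∃ N : Finset X, N.card ≤ d ∧ ∀ y, H x y → y ∈ N) :
    ∃ c : X → Fin (d + d * d + 1), (∀ x y, H x y → c x ≠ c y) ∧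
      ∀ x y z, H x y → H x z → y ≠ z → c y ≠ c z := by
  classical
  obtain ⟨c, hc⟩ := greedy_colouring
    (fun x y => x ≠ y ∧ (H x y ∨ ∃ z, H x z ∧ H z y)) (d + d * d)
    (by
      rintro x y ⟨h1, h2⟩
      refine ⟨h1.symm, ?_⟩
      rcases h2 with h2 | ⟨z, h3, h4⟩
      · exact Or.inl (hH _ _ h2)
      · exact Or.inr ⟨z, hH _ _ h4, hH _ _ h3⟩)
    (by rintro x ⟨h, _⟩; exact h rfl)
    (by
      choose N hN hN' using hd
      intro x
      refine ⟨N x ∪ (N x).biUnion N, ?_, ?_⟩
      · refine (Finset.card_union_le _ _).trans (Nat.add_le_add (hN x) ?_)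
        refine (Finset.card_biUnion_le_card_mul _ _ d (fun y _ => hN y)).trans ?_
        exact Nat.mul_le_mul_right _ (hN x)
      · rintro y ⟨_, h | ⟨z, h1, h2⟩⟩
        · exact Finset.mem_union_left _ (hN' _ _ h)
        · exact Finset.mem_union_right _ (Finset.mem_biUnion.mpr ⟨z, hN' _ _ h1, hN' _ _ h2⟩))
  refine ⟨c, ?_, ?_⟩
  · intro x y h
    exact hc x y ⟨by rintro rfl; exact hirr _ h, Or.inl h⟩
  · intro x y z h1 h2 h3
    exact hc y z ⟨h3, Or.inr ⟨x, hH _ _ h1, h2⟩⟩

end Pool.Agent.H55
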