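import Mathlib
import Pool.Agent.H55.Halving2

set_option autoImplicit false

namespace Pool.Agent.H55

variable {V : Type*}

/-- `q 0, q 1, ..., q n` is a path of length `n` in `F`. -/
def IsLine (F : SimpleGraph V) (q : ℕ → V) (n : ℕ) : Prop :=
  (∀ i < n, F.Adj (q i) (q (i + 1))) ∧ Set.InjOn q (Set.Iic n)

/-- Every `F`-path of length `s` has an edge in `K`. -/
def Hit (F : SimpleGraph V) (K : Set (Sym2 V)) (s : ℕ) : Prop :=
  ∀ q, IsLine F q s → ∃ i < s, s(q i, q (i + 1)) ∈ K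

/-- No vertex has three distinct neighbours. -/
def Deg2 (F : SimpleGraph V) : Prop :=
  ∀ v x y z, F.Adj v x → F.Adj v y → F.Adj v z → x = y ∨ y = z ∨ x = z

theorem IsLine.sub {F : SimpleGraph V} {q : ℕ → V} {n : ℕ} (h : IsLine F q n) (o m : ℕ)
    (hom : o + m ≤ n) : IsLine F (fun i => q (o + i)) m := by
  refine ⟨fun i hi => ?_, fun i hi j hj hij => ?_⟩
  · have := h.1 (o + i) (by omega)
    simpa [add_assoc] using this
  · simp only [Set.mem_Iic] at hi hj
    have := h.2 (show o + i ∈ Set.Iic n by simp only [Set.mem_Iic]; omega)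
      (show o + j ∈ Set.Iic n by simp only [Set.mem_Iic]; omega) hij
    omega

theorem IsLine.nbr {F : SimpleGraph V} (hF : Deg2 F) {q : ℕ → V} {n : ℕ} (h : IsLine F q n)
    (i : ℕ) (hi : i + 2 ≤ n) (v : V) (hv : F.Adj (q (i + 1)) v) : v = q i ∨ v = q (i + 2) := by
  have h1 : F.Adj (q (i + 1)) (q i) := (h.1 i (by omega)).symm
  have h2 : F.Adj (q (i + 1)) (q (i + 2)) := h.1 (i + 1) (by omega)
  have h3 : q i ≠ q (i + 2) := by
    intro he
    have := h.2 (show i ∈ Set.Iic n by simp only [Set.mem_Iic]; omega)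
      (show i + 2 ∈ Set.Iic n by simp only [Set.mem_Iic]; omega) he
    omega
  rcases hF _ _ _ _ h1 h2 hv with h4 | h4 | h4
  · exact absurd h4 h3
  · exact Or.inr h4.symm
  · exact Or.inl h4.symm

/-- `F`-balls around the middle of a line stay in the line. -/
theorem IsLine.ball {F : SimpleGraph V} (hF : Deg2 F) {q : ℕ → V} {n : ℕ} (h : IsLine F q n)
    {u v : V} (p : F.Walk u v) :
    ∀ i, u = q i → p.length ≤ i → i + p.length ≤ n →
      ∃ j, v = q j ∧ i ≤ j + p.length ∧ j ≤ i + p.length := by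
  induction p with
  | nil => intro i hi _ _; exact ⟨i, hi, by omega, by omega⟩
  | @cons u w v hadj p ih =>
    intro i hi h1 h2
    rw [SimpleGraph.Walk.length_cons] at h1 h2
    obtain ⟨i, rfl⟩ : ∃ i', i = i' + 1 := ⟨i - 1, by omega⟩
    rw [hi] at hadj
    rcases h.nbr hF i (by omega) w hadj with h3 | h3
    · obtain ⟨j, hj, h4, h5⟩ := ih i h3 (by omega) (by omega)
      exact ⟨j, hj, by rw [SimpleGraph.Walk.length_cons]; omega,
        by rw [SimpleGraph.Walk.length_cons]; omega⟩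
    · obtain ⟨j, hj, h4, h5⟩ := ih (i + 2) h3 (by omega) (by omega)
      exact ⟨j, hj, by rw [SimpleGraph.Walk.length_cons]; omega,
        by rw [SimpleGraph.Walk.length_cons]; omega⟩

/-- A walk along a line. -/
theorem IsLine.walk {F : SimpleGraph V} {q : ℕ → V} {n : ℕ} (h : IsLine F q n) (i m : ℕ)
    (him : i + m ≤ n) : ∃ p : F.Walk (q i) (q (i + m)), p.length = m := by
  induction m with
  | zero => exact ⟨SimpleGraph.Walk.nil, rfl⟩
  | succ m ih =>
    obtain ⟨p, hp⟩ := ih (by omega)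
    have h1 : F.Adj (q (i + m)) (q (i + (m + 1))) := h.1 (i + m) (by omega)
    exact ⟨p.concat h1, by rw [SimpleGraph.Walk.length_concat, hp]⟩

/-- Closeness of two edges. -/
def Close (F : SimpleGraph V) (r : ℕ) (e f : Sym2 V) : Prop :=
  ∃ u ∈ e, ∃ v ∈ f, ∃ p : F.Walk u v, p.length ≤ r

theorem Close.symm {F : SimpleGraph V} {r : ℕ} {e f : Sym2 V} (h : Close F r e f) :
    Close F r f e := by
  obtain ⟨u, hu, v, hv, p, hp⟩ := h
  exact ⟨v, hv, u, hu, p.reverse, by rw [SimpleGraph.Walk.length_reverse]; exact hp⟩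

/-- An `F`-edge close to a middle edge of a line is an edge of the line. -/
theorem IsLine.close_edge {F : SimpleGraph V} (hF : Deg2 F) {q : ℕ → V} {n r : ℕ}
    (h : IsLine F q n) (i : ℕ) (hi : r + 2 ≤ i) (hi' : i + r + 4 ≤ n) (f : Sym2 V)
    (hf : f ∈ F.edgeSet) (hc : Close F r s(q i, q (i + 1)) f) :
    ∃ j < n, f = s(q j, q (j + 1)) := by
  obtain ⟨u, hu, v, hv, p, hp⟩ := hc
  obtain ⟨w, hw⟩ : ∃ w, f = s(v, w) := by
    obtain ⟨w, hw⟩ := hv; exact ⟨w, hw⟩
  subst hw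
  rw [SimpleGraph.mem_edgeSet] at hf
  have key : ∀ i, u = q i → r + 2 ≤ i → i + r + 3 ≤ n → ∃ j < n, s(v, w) = s(q j, q (j + 1)) := by
    intro i hui h1 h2
    obtain ⟨j, hj, h3, h4⟩ := h.ball hF p i hui (by omega) (by omega)
    obtain ⟨j, rfl⟩ : ∃ j', j = j' + 1 := ⟨j - 1, by omega⟩
    rw [hj] at hf
    rcases h.nbr hF j (by omega) w hf with h5 | h5
    · refine ⟨j, by omega, ?_⟩
      rw [hj, h5]; exact Sym2.eq_swap
    · refine ⟨j + 1, by omega, ?_⟩
      rw [hj, h5]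
  rw [Sym2.mem_iff] at hu
  rcases hu with hu | hu
  · exact key i hu hi (by omega)
  · exact key (i + 1) hu (by omega) (by omega)

/-- The step from `K` to a subset without `M`-related pairs. -/
theorem hit_step [Finite V] {F : SimpleGraph V} (hF : Deg2 F) (K : Set (Sym2 V)) (s : ℕ)
    (hKF : K ⊆ F.edgeSet) (hK : Hit F K s) (M : Sym2 V → Sym2 V → Prop)
    (hM : ∀ x y, M x y → M y x) (hM1 : ∀ x y z, M x y → M x z → y = z) :
    ∃ K' ⊆ K, Hit F K' (6 * s + 10) ∧ ∀ x ∈ K', ∀ y ∈ K', x ≠ y → ¬ M x y := by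
  obtain ⟨K', hK'K, hK'M, hK'⟩ := halving_step K (Close F (2 * s)) M hM
    (fun _ _ h => h.symm) hM1
  refine ⟨K', hK'K, ?_, hK'M⟩
  intro q hq
  -- two edges in the middle
  have h1 := hq.sub (2 * s + 2) s (by omega)
  have h2 := hq.sub (2 * s + 2 + s) s (by omega)
  obtain ⟨i, hi, hiK⟩ := hK _ h1
  obtain ⟨j, hj, hjK⟩ := hK _ h2
  set a := 2 * s + 2 + i with ha
  set b := 2 * s + 2 + s + j with hb
  rw [← add_assoc, ← ha] at hiK
  rw [← add_assoc, ← hb] at hjK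
  have hne : s(q a, q (a + 1)) ≠ s(q b, q (b + 1)) := by
    intro h
    have hab : a < b := by omega
    rcases Sym2.eq_iff.mp h with ⟨h3, _⟩ | ⟨h3, h4⟩
    · have := hq.2 (show a ∈ Set.Iic _ by simp only [Set.mem_Iic]; omega)
        (show b ∈ Set.Iic _ by simp only [Set.mem_Iic]; omega) h3
      omega
    · have := hq.2 (show a ∈ Set.Iic _ by simp only [Set.mem_Iic]; omega)
        (show b + 1 ∈ Set.Iic _ by simp only [Set.mem_Iic]; omega) h3
      omega
  have hclose : Close F (2 * s) s(q a, q (a + 1)) s(q b, q (b + 1)) := by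
    obtain ⟨p, hp⟩ := hq.walk a (b - a) (by omega)
    have e : a + (b - a) = b := by omega
    refine ⟨q a, by simp, q (a + (b - a)), by rw [e]; simp, p, by omega⟩
  have fin : ∀ i, 2 * s + 2 ≤ i → i ≤ 4 * s + 2 → ∀ z ∈ K', (z = s(q i, q (i + 1)) ∨
      Close F (2 * s) s(q i, q (i + 1)) z) → ∃ i < 6 * s + 10, s(q i, q (i + 1)) ∈ K' := by
    intro i hi1 hi2 z hz hz'
    rcases hz' with rfl | hz'
    · exact ⟨i, by omega, hz⟩
    · obtain ⟨j, hj, hj'⟩ := hq.close_edge hF (r := 2 * s) i (by omega) (by omega) z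
        (hKF (hK'K hz)) hz'
      exact ⟨j, hj, hj' ▸ hz⟩
  obtain ⟨z, hz, h3 | h3 | h3 | h3⟩ := hK' _ hiK _ hjK hne hclose
  · exact fin a (by omega) (by omega) z hz (Or.inl h3)
  · exact fin b (by omega) (by omega) z hz (Or.inl h3)
  · exact fin a (by omega) (by omega) z hz (Or.inr h3)
  · exact fin b (by omega) (by omega) z hz (Or.inr h3)

/-- Iterating over a finite family of partial matchings. -/
theorem hit_iterate [Finite V] {F : SimpleGraph V} (hF : Deg2 F) {ι : Type*}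
    (M : ι → Sym2 V → Sym2 V → Prop)
    (hM : ∀ i x y, M i x y → M i y x) (hM1 : ∀ i x y z, M i x y → M i x z → y = z)
    (I : Finset ι) (K : Set (Sym2 V)) (s : ℕ)
    (hKF : K ⊆ F.edgeSet) (hK : Hit F K s) :
    ∃ K' ⊆ K, Hit F K' ((fun s => 6 * s + 10)^[I.card] s) ∧
      ∀ i ∈ I, ∀ x ∈ K', ∀ y ∈ K', x ≠ y → ¬ M i x y := by
  classical
  induction I using Finset.induction_on with
  | empty => exact ⟨K, subset_rfl, hK, by simp⟩
  | insert i I hi ih =>
    obtain ⟨K₁, h1, h2, h3⟩ := ih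
    obtain ⟨K₂, h4, h5, h6⟩ := hit_step hF K₁ _ (h1.trans hKF) h2 (M i) (hM i) (hM1 i)
    refine ⟨K₂, h4.trans h1, ?_, ?_⟩
    · rw [Finset.card_insert_of_notMem hi, Function.iterate_succ_apply']
      exact h5
    · intro j hj x hx y hy hxy
      rw [Finset.mem_insert] at hj
      rcases hj with rfl | hj
      · exact h6 x hx y hy hxy
      · exact h3 j hj x (h4 hx) y (h4 hy) hxy

/-- Selecting a subset without `H`-related pairs, `H` a relation of bounded degree. -/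
theorem hit_select [Finite V] {F : SimpleGraph V} (hF : Deg2 F)
    (H : Sym2 V → Sym2 V → Prop) (d : ℕ)
    (hH : ∀ x y, H x y → H y x) (hirr : ∀ x, ¬ H x x)
    (hd : ∀ x, ∃ N : Finset (Sym2 V), N.card ≤ d ∧ ∀ y, H x y → y ∈ N)
    (K : Set (Sym2 V)) (s : ℕ) (hKF : K ⊆ F.edgeSet) (hK : Hit F K s) :
    ∃ K' ⊆ K, Hit F K' ((fun s => 6 * s + 10)^[(d + d * d + 1) * (d + d * d + 1)] s) ∧
      ∀ x ∈ K', ∀ y ∈ K', ¬ H x y := by
  classical
  have := Fintype.ofFinite V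
  obtain ⟨c, hc1, hc2⟩ := matchings_cover H d hH hirr hd
  let m := d + d * d + 1
  let M : Fin m × Fin m → Sym2 V → Sym2 V → Prop := fun ij x y =>
    H x y ∧ ((c x = ij.1 ∧ c y = ij.2) ∨ (c x = ij.2 ∧ c y = ij.1))
  obtain ⟨K', h1, h2, h3⟩ := hit_iterate hF M
    (by
      rintro ⟨i, j⟩ x y ⟨h1, h2⟩
      exact ⟨hH _ _ h1, by tauto⟩)
    (by
      rintro ⟨i, j⟩ x y z ⟨h1, h2⟩ ⟨h3, h4⟩
      by_contra hyz
      have h5 := hc2 x y z h1 h3 hyz
      have h6 := hc1 x y h1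
      have h7 := hc1 x z h3
      simp only at h2 h4
      rcases h2 with ⟨h2, h2'⟩ | ⟨h2, h2'⟩ <;> rcases h4 with ⟨h4, h4'⟩ | ⟨h4, h4'⟩
      · exact h5 (h2'.trans h4'.symm)
      · exact h7 (h2.trans h4'.symm)
      · exact h6 (h4.trans h2'.symm)
      · exact h5 (h2'.trans h4'.symm))
    Finset.univ K s hKF hK
  refine ⟨K', h1, ?_, ?_⟩
  · have : (Finset.univ : Finset (Fin m × Fin m)).card = m * m := by simp
    rw [this] at h2
    exact h2
  · intro x hx y hy hxy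
    have hne : x ≠ y := by rintro rfl; exact hirr _ hxy
    exact h3 (c x, c y) (Finset.mem_univ _) x hx y hy hne ⟨hxy, Or.inl ⟨rfl, rfl⟩⟩

theorem hit_select_uniform (d s : ℕ) : ∃ S : ℕ, ∀ (V : Type*) [Finite V] (F : SimpleGraph V)
    (_ : Deg2 F) (H : Sym2 V → Sym2 V → Prop) (_ : ∀ x y, H x y → H y x) (_ : ∀ x, ¬ H x x)
    (_ : ∀ x, ∃ N : Finset (Sym2 V), N.card ≤ d ∧ ∀ y, H x y → y ∈ N)
    (K : Set (Sym2 V)) (_ : K ⊆ F.edgeSet) (_ : Hit F K s),
    ∃ K' ⊆ K, Hit F K' S ∧ ∀ x ∈ K', ∀ y ∈ K', ¬ H x y :=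
  ⟨(fun s => 6 * s + 10)^[(d + d * d + 1) * (d + d * d + 1)] s,
    fun _ _ _ hF H hH hirr hd K hKF hK => hit_select hF H d hH hirr hd K s hKF hK⟩

end Pool.Agent.H55
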