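import Mathlib
import Pool.Agent.H55.Lines

set_option autoImplicit false

namespace Pool.Agent.H55

open SimpleGraph

variable {V : Type*}

/-- `v` has two distinct `F`-neighbours. -/
def Two (F : SimpleGraph V) (v : V) : Prop := ∃ x y, x ≠ y ∧ F.Adj v x ∧ F.Adj v y

/-- `u` and `v` are at `G`-distance at most two. -/
def Near (G : SimpleGraph V) (u v : V) : Prop :=
  u = v ∨ G.Adj u v ∨ ∃ d, G.Adj u d ∧ G.Adj d v

theorem Near.symm {G : SimpleGraph V} {u v : V} (h : Near G u v) : Near G v u := by
  rcases h with h | h | ⟨d, h1, h2⟩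
  · exact Or.inl h.symm
  · exact Or.inr (Or.inl h.symm)
  · exact Or.inr (Or.inr ⟨d, h2.symm, h1.symm⟩)

/-- Existence of a maximal subgraph with all degrees at most two. -/
theorem exists_maximal_deg2 [Finite V] (G : SimpleGraph V) :
    ∃ F : SimpleGraph V, F ≤ G ∧ Deg2 F ∧
      ∀ u v, G.Adj u v → ¬ F.Adj u v → Two F u ∨ Two F v := by
  classical
  let S : Set (SimpleGraph V) := {F | F ≤ G ∧ Deg2 F}
  have hS : S.Nonempty := ⟨⊥, bot_le, by intro v x y z h; exact absurd h (by simp)⟩
  obtain ⟨F, ⟨hFG, hF⟩, hmax⟩ := (Set.toFinite S).exists_maximal hS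
  refine ⟨F, hFG, hF, ?_⟩
  intro u v huv hnuv
  by_contra hcon
  push Not at hcon
  obtain ⟨hu, hv⟩ := hcon
  have hu' : ∀ x y, F.Adj u x → F.Adj u y → x = y := by
    intro x y hx hy; by_contra h; exact hu ⟨x, y, h, hx, hy⟩
  have hv' : ∀ x y, F.Adj v x → F.Adj v y → x = y := by
    intro x y hx hy; by_contra h; exact hv ⟨x, y, h, hx, hy⟩
  let F' : SimpleGraph V :=
    { Adj := fun a b => F.Adj a b ∨ (a = u ∧ b = v) ∨ (a = v ∧ b = u)
      symm := ⟨by
        rintro a b (h | ⟨h1, h2⟩ | ⟨h1, h2⟩)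
        · exact Or.inl h.symm
        · exact Or.inr (Or.inr ⟨h2, h1⟩)
        · exact Or.inr (Or.inl ⟨h2, h1⟩)⟩
      loopless := ⟨by
        rintro a (h | ⟨h1, h2⟩ | ⟨h1, h2⟩)
        · exact F.loopless.irrefl _ h
        · exact huv.ne (h1.symm.trans h2)
        · exact huv.ne (h2.symm.trans h1)⟩ }
  have hF'adj : ∀ a b, F'.Adj a b ↔ F.Adj a b ∨ (a = u ∧ b = v) ∨ (a = v ∧ b = u) :=
    fun _ _ => Iff.rfl
  have hF'S : F' ∈ S := by
    constructor
    · intro a b h
      rcases h with h | ⟨h1, h2⟩ | ⟨h1, h2⟩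
      · exact hFG h
      · subst h1 h2; exact huv
      · subst h1 h2; exact huv.symm
    · intro w x y z hx hy hz
      have huv' := huv.ne
      rw [hF'adj] at hx hy hz
      by_cases hwu : w = u
      · subst hwu
        have e : ∀ b, (F.Adj w b ∨ (w = w ∧ b = v) ∨ (w = v ∧ b = w)) → F.Adj w b ∨ b = v := by
          rintro b (h | ⟨_, h⟩ | ⟨h, _⟩)
          · exact Or.inl h
          · exact Or.inr h
          · exact absurd h huv'
        rcases e x hx with h1 | h1 <;> rcases e y hy with h2 | h2 <;> rcases e z hz with h3 | h3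
        · exact Or.inl (hu' _ _ h1 h2)
        · exact Or.inl (hu' _ _ h1 h2)
        · exact Or.inr (Or.inr (hu' _ _ h1 h3))
        · exact Or.inr (Or.inl (h2.trans h3.symm))
        · exact Or.inr (Or.inl (hu' _ _ h2 h3))
        · exact Or.inr (Or.inr (h1.trans h3.symm))
        · exact Or.inl (h1.trans h2.symm)
        · exact Or.inl (h1.trans h2.symm)
      · by_cases hwv : w = v
        · subst hwv
          have e : ∀ b, (F.Adj w b ∨ (w = u ∧ b = w) ∨ (w = w ∧ b = u)) → F.Adj w b ∨ b = u := by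
            rintro b (h | ⟨h, _⟩ | ⟨_, h⟩)
            · exact Or.inl h
            · exact absurd h hwu
            · exact Or.inr h
          rcases e x hx with h1 | h1 <;> rcases e y hy with h2 | h2 <;> rcases e z hz with h3 | h3
          · exact Or.inl (hv' _ _ h1 h2)
          · exact Or.inl (hv' _ _ h1 h2)
          · exact Or.inr (Or.inr (hv' _ _ h1 h3))
          · exact Or.inr (Or.inl (h2.trans h3.symm))
          · exact Or.inr (Or.inl (hv' _ _ h2 h3))
          · exact Or.inr (Or.inr (h1.trans h3.symm))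
          · exact Or.inl (h1.trans h2.symm)
          · exact Or.inl (h1.trans h2.symm)
        · have e : ∀ b, (F.Adj w b ∨ (w = u ∧ b = v) ∨ (w = v ∧ b = u)) → F.Adj w b := by
            rintro b (h | ⟨h, _⟩ | ⟨h, _⟩)
            · exact h
            · exact absurd h hwu
            · exact absurd h hwv
          exact hF _ _ _ _ (e x hx) (e y hy) (e z hz)
  have hle : F ≤ F' := fun a b h => Or.inl h
  have := hmax hF'S hle
  exact hnuv (this (show F'.Adj u v from Or.inr (Or.inl ⟨rfl, rfl⟩)))

/-- The edges of `F` all of whose ends have two `F`-neighbours. -/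
def Inner (F : SimpleGraph V) : Set (Sym2 V) :=
  {e | ∃ u v, e = s(u, v) ∧ F.Adj u v ∧ Two F u ∧ Two F v}

theorem inner_subset (F : SimpleGraph V) : Inner F ⊆ F.edgeSet := by
  rintro e ⟨u, v, rfl, h, _, _⟩
  exact h

theorem inner_hit (F : SimpleGraph V) : Hit F (Inner F) 3 := by
  intro q hq
  have h0 := hq.1 0 (by omega)
  have h1 := hq.1 1 (by omega)
  have h2 := hq.1 2 (by omega)
  simp only [Nat.reduceAdd, zero_add] at h0 h1 h2
  have hinj : ∀ i j, i ≤ 3 → j ≤ 3 → i ≠ j → q i ≠ q j := fun i j hi hj hij h =>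
    hij (hq.2 hi hj h)
  refine ⟨1, by omega, q 1, q 2, rfl, h1, ⟨q 0, q 2, ?_, h0.symm, h1⟩, ⟨q 1, q 3, ?_, h1.symm, h2⟩⟩
  · exact hinj 0 2 (by omega) (by omega) (by omega)
  · exact hinj 1 3 (by omega) (by omega) (by omega)

/-- The balls of a graph. -/
noncomputable def ball [Fintype V] (G : SimpleGraph V) (v : V) : ℕ → Finset V := by
  classical
  exact fun n => Nat.rec {v} (fun _ B => B.biUnion fun u => insert u (G.neighborFinset u)) n

theorem ball_zero [Fintype V] (G : SimpleGraph V) (v : V) : ball G v 0 = {v} := rfl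

theorem mem_ball_succ [Fintype V] (G : SimpleGraph V) (v : V) (n : ℕ) (w : V) :
    w ∈ ball G v (n + 1) ↔ ∃ u ∈ ball G v n, w = u ∨ G.Adj u w := by
  classical
  have : ball G v (n + 1) = (ball G v n).biUnion fun u => insert u (G.neighborFinset u) := by
    unfold ball
    simp only
  rw [this]
  simp [Finset.mem_biUnion, Finset.mem_insert]

theorem ball_card [Fintype V] (G : SimpleGraph V) [DecidableRel G.Adj] (hG : G.maxDegree ≤ 3) (v : V) (n : ℕ) :
    (ball G v n).card ≤ 4 ^ n := by
  classical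
  induction n with
  | zero => simp [ball_zero]
  | succ n ih =>
    have h1 : ball G v (n + 1) = (ball G v n).biUnion fun u => insert u (G.neighborFinset u) := by
      ext w
      rw [mem_ball_succ]
      simp [Finset.mem_biUnion, Finset.mem_insert]
    rw [h1, pow_succ]
    refine (Finset.card_biUnion_le_card_mul _ _ 4 ?_).trans (Nat.mul_le_mul_right _ ih)
    intro u _
    refine (Finset.card_insert_le _ _).trans ?_
    have := G.degree_le_maxDegree u
    rw [card_neighborFinset_eq_degree]
    omega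

theorem mem_ball_of_walk [Fintype V] (G : SimpleGraph V) {u v : V} (p : G.Walk u v) (n : ℕ)
    (hp : p.length ≤ n) : v ∈ ball G u n := by
  classical
  induction n generalizing v with
  | zero =>
    have := SimpleGraph.Walk.eq_of_length_eq_zero (p := p) (by omega)
    subst this; simp [ball_zero]
  | succ n ih =>
    rw [mem_ball_succ]
    by_cases h : p.length ≤ n
    · exact ⟨v, ih p h, Or.inl rfl⟩
    · have hlen : p.length = n + 1 := by omega
      have hadj : G.Adj (p.getVert n) (p.getVert (n + 1)) :=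
        p.adj_getVert_succ (by omega)
      have hlast : p.getVert (n + 1) = v := by rw [← hlen]; exact p.getVert_length
      refine ⟨p.getVert n, ih (p.take n) ?_, Or.inr (by rw [hlast] at hadj; exact hadj)⟩
      rw [SimpleGraph.Walk.take_length]; omega

/-- Conflict of two edges of `G`. -/
def Conf (G : SimpleGraph V) (e f : Sym2 V) : Prop :=
  e ≠ f ∧ e ∈ G.edgeSet ∧ f ∈ G.edgeSet ∧ ∃ u ∈ e, ∃ v ∈ f, Near G u v

theorem conf_bound [Fintype V] (G : SimpleGraph V) [DecidableRel G.Adj]
    (hG : G.maxDegree ≤ 3) (e : Sym2 V) :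
    ∃ N : Finset (Sym2 V), N.card ≤ 96 ∧ ∀ f, Conf G e f → f ∈ N := by
  classical
  induction e with
  | _ a b =>
  refine ⟨(({a, b} : Finset V).biUnion fun u => ball G u 2).biUnion fun v =>
    (G.neighborFinset v).image fun w => s(v, w), ?_, ?_⟩
  · refine (Finset.card_biUnion_le_card_mul _ _ 3 ?_).trans ?_
    · intro v _
      refine Finset.card_image_le.trans ?_
      rw [card_neighborFinset_eq_degree]
      exact (G.degree_le_maxDegree v).trans hG
    · have h1 : (({a, b} : Finset V).biUnion fun u => ball G u 2).card ≤ 2 * 16 := by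
        refine (Finset.card_biUnion_le_card_mul _ _ 16 ?_).trans ?_
        · intro u _
          exact (ball_card G hG u 2).trans (by norm_num)
        · exact Nat.mul_le_mul_right _ Finset.card_le_two
      omega
  · rintro f ⟨_, _, hf, u, hu, v, hv, huv⟩
    obtain ⟨w, rfl⟩ := hv
    rw [Finset.mem_biUnion]
    refine ⟨v, ?_, ?_⟩
    · rw [Finset.mem_biUnion]
      refine ⟨u, ?_, ?_⟩
      · simpa using hu
      · rw [mem_ball_succ]
        rcases huv with rfl | h | ⟨d, h1, h2⟩
        · exact ⟨u, by rw [mem_ball_succ]; exact ⟨u, by simp [ball_zero], Or.inl rfl⟩, Or.inl rfl⟩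
        · exact ⟨u, by rw [mem_ball_succ]; exact ⟨u, by simp [ball_zero], Or.inl rfl⟩, Or.inr h⟩
        · exact ⟨d, by rw [mem_ball_succ]; exact ⟨u, by simp [ball_zero], Or.inr h1⟩, Or.inr h2⟩
    · rw [Finset.mem_image]
      exact ⟨w, by simpa using hf, rfl⟩

/-- A vertex of degree at most three with two `F`-neighbours has at most one
neighbour outside `F`. -/
theorem not_two [Fintype V] (G F : SimpleGraph V) [DecidableRel G.Adj] (hG : G.maxDegree ≤ 3)
    (hFG : F ≤ G) {v z w : V} (hz : G.Adj v z) (hw : G.Adj v w) (hzw : z ≠ w)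
    (hz' : ¬ F.Adj v z) (hw' : ¬ F.Adj v w) : ¬ Two F v := by
  classical
  rintro ⟨x, y, hxy, hx, hy⟩
  have h1 : ({x, y, z, w} : Finset V) ⊆ G.neighborFinset v := by
    intro a ha
    simp only [Finset.mem_insert, Finset.mem_singleton] at ha
    rw [mem_neighborFinset]
    rcases ha with rfl | rfl | rfl | rfl
    · exact hFG hx
    · exact hFG hy
    · exact hz
    · exact hw
  have h2 := Finset.card_le_card h1
  rw [card_neighborFinset_eq_degree] at h2
  have h3 := (G.degree_le_maxDegree v).trans hG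
  have hxz : x ≠ z := by rintro rfl; exact hz' hx
  have hxw : x ≠ w := by rintro rfl; exact hw' hx
  have hyz : y ≠ z := by rintro rfl; exact hz' hy
  have hyw : y ≠ w := by rintro rfl; exact hw' hy
  have h4 : ({x, y, z, w} : Finset V).card = 4 := by
    rw [Finset.card_insert_of_notMem (by simp [hxy, hxz, hxw]),
      Finset.card_insert_of_notMem (by simp [hyz, hyw]),
      Finset.card_insert_of_notMem (by simp [hzw]), Finset.card_singleton]
  omega

/-- The cut graph. -/
theorem exists_cut : ∃ S : ℕ, ∀ (V : Type*) [Fintype V] (G : SimpleGraph V)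
    [DecidableRel G.Adj], G.maxDegree ≤ 3 →
    ∃ F : SimpleGraph V, ∃ K : Set (Sym2 V), F ≤ G ∧
      (∀ u v, G.Adj u v → ¬ F.Adj u v → Two F u ∨ Two F v) ∧
      K ⊆ F.edgeSet ∧ Hit F K S ∧ ∀ x ∈ K, ∀ y ∈ K, ¬ Conf G x y := by
  classical
  obtain ⟨S, hS⟩ := hit_select_uniform 96 3
  refine ⟨S, fun V _ G _ hG => ?_⟩
  obtain ⟨F, hFG, hF, hmax⟩ := exists_maximal_deg2 G
  obtain ⟨K, hK1, hK2, hK3⟩ := hS V F hF (Conf G)
    (by
      rintro x y ⟨h1, h2, h3, u, hu, v, hv, h⟩
      exact ⟨h1.symm, h3, h2, v, hv, u, hu, h.symm⟩)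
    (by rintro x ⟨h, _⟩; exact h rfl)
    (conf_bound G hG) (Inner F) (inner_subset F) (inner_hit F)
  exact ⟨F, K, hFG, hmax, hK1.trans (inner_subset F), hK2, hK3⟩

/-- The blocking property. -/
theorem blocking_aux [Fintype V] (G F : SimpleGraph V) [DecidableRel G.Adj]
    (hG : G.maxDegree ≤ 3) (K : Set (Sym2 V)) (hFG : F ≤ G)
    (hmax : ∀ u v, G.Adj u v → ¬ F.Adj u v → Two F u ∨ Two F v)
    (hK : ∀ x ∈ K, ∀ y ∈ K, ¬ Conf G x y)
    {u v : V} (w : G.Walk u v) (hw : w.IsPath)
    (hclean : ∀ i j, i ≤ w.length → j ≤ w.length → i ≠ j →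
      ¬ (F.deleteEdges K).Adj (w.getVert i) (w.getVert j)) : w.length ≤ 5 := by
  classical
  by_contra hcon
  push Not at hcon
  have hadj : ∀ i, i + 1 ≤ w.length → G.Adj (w.getVert i) (w.getVert (i + 1)) := fun i hi =>
    w.adj_getVert_succ (by omega)
  have hinj : ∀ i j, i ≤ w.length → j ≤ w.length → i ≠ j → w.getVert i ≠ w.getVert j :=
    fun i j hi hj hij h => hij (hw.getVert_injOn hi hj h)
  have ht : ∀ i, i + 1 ≤ w.length → s(w.getVert i, w.getVert (i + 1)) ∉ K →
      ¬ F.Adj (w.getVert i) (w.getVert (i + 1)) := by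
    intro i hi hiK hF
    exact hclean i (i + 1) (by omega) hi (by omega)
      (SimpleGraph.deleteEdges_adj.mpr ⟨hF, hiK⟩)
  -- among three consecutive edges there is one in K
  have hA : ∀ i, i + 3 ≤ w.length → ∃ j, i ≤ j ∧ j ≤ i + 2 ∧
      s(w.getVert j, w.getVert (j + 1)) ∈ K := by
    intro i hi
    by_contra hno
    push Not at hno
    have h0 := ht i (by omega) (hno i (by omega) (by omega))
    have h1 := ht (i + 1) (by omega) (hno (i + 1) (by omega) (by omega))
    have h2 := ht (i + 2) (by omega) (hno (i + 2) (by omega) (by omega))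
    have a0 := hadj i (by omega)
    have a1 := hadj (i + 1) (by omega)
    have a2 := hadj (i + 2) (by omega)
    have n1 : ¬ Two F (w.getVert (i + 1)) :=
      not_two G F hG hFG a0.symm a1 (hinj i (i + 2) (by omega) (by omega) (by omega))
        (fun h => h0 h.symm) h1
    have n2 : ¬ Two F (w.getVert (i + 2)) :=
      not_two G F hG hFG a1.symm a2 (hinj (i + 1) (i + 3) (by omega) (by omega) (by omega))
        (fun h => h1 h.symm) h2
    rcases hmax _ _ a1 h1 with h | h
    · exact n1 h
    · exact n2 h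
  have hB : ∀ i j, i < j → j ≤ i + 3 → j + 1 ≤ w.length →
      s(w.getVert i, w.getVert (i + 1)) ∈ K → s(w.getVert j, w.getVert (j + 1)) ∈ K → False := by
    intro i j hij hj3 hj hiK hjK
    refine hK _ hiK _ hjK ⟨?_, hadj i (by omega), hadj j hj, w.getVert (i + 1), by simp,
      w.getVert j, by simp, ?_⟩
    · intro h
      rcases Sym2.eq_iff.mp h with ⟨h3, _⟩ | ⟨h3, _⟩
      · exact hinj i j (by omega) (by omega) (by omega) h3
      · exact hinj i (j + 1) (by omega) (by omega) (by omega) h3
    · have : j = i + 1 ∨ j = i + 2 ∨ j = i + 3 := by omega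
      rcases this with rfl | rfl | rfl
      · exact Or.inl rfl
      · exact Or.inr (Or.inl (hadj (i + 1) (by omega)))
      · exact Or.inr (Or.inr ⟨w.getVert (i + 2), hadj (i + 1) (by omega),
          hadj (i + 2) (by omega)⟩)
  obtain ⟨a, ha1, ha2, ha3⟩ := hA 0 (by omega)
  obtain ⟨b, hb1, hb2, hb3⟩ := hA (a + 1) (by omega)
  exact hB a b (by omega) (by omega) (by omega) ha3 hb3

/-- Components of the cut graph are small. -/
theorem component_small [Fintype V] (G F : SimpleGraph V) [DecidableRel G.Adj]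
    (K : Set (Sym2 V)) (S : ℕ) (hFG : F ≤ G) (hHit : Hit F K S)
    {u v : V} (h : (F.deleteEdges K).Reachable u v) : v ∈ ball G u S := by
  classical
  obtain ⟨p, hp⟩ := h.exists_isPath
  have hlen : p.length ≤ S := by
    by_contra hcon
    push Not at hcon
    have hline : IsLine F p.getVert S := by
      refine ⟨fun i hi => ?_, fun i hi j hj hij => ?_⟩
      · have := p.adj_getVert_succ (i := i) (by omega)
        exact (SimpleGraph.deleteEdges_adj.mp this).1
      · simp only [Set.mem_Iic] at hi hj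
        exact hp.getVert_injOn (show i ≤ p.length by omega) (show j ≤ p.length by omega) hij
    obtain ⟨i, hi, hiK⟩ := hHit _ hline
    have := p.adj_getVert_succ (i := i) (by omega)
    exact (SimpleGraph.deleteEdges_adj.mp this).2 hiK
  have hle : F.deleteEdges K ≤ G := (SimpleGraph.deleteEdges_le K).trans hFG
  exact mem_ball_of_walk G (p.mapLe hle) _ (by rw [SimpleGraph.Walk.length_mapLe]; exact hlen)

end Pool.Agent.H55
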